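import Pool.Agent.H96.AL.Final

/-!
# Finiteness of bounded constructible complexes on compact Alexandrov spaces

The definitions are in `Pool/Agent/H96/AL/Stmt.lean`. The proof has a geometric half (gradient
flows which preserve extremal subsets give stratum preserving contractions and push-offs) and a
topological half (stratum preserving homotopies give finiteness of Ext groups and of the number
of isomorphism classes).
-/

namespace Pool.Agent.Results.MP_c9ef16_gt.FinitenessOfComplexes

open CategoryTheory Pool.Agent.H96.AL

/-- Let `F` be a finite field, `X` a compact finite-dimensional Alexandrov space and `N` a natural
number. There are finitely many objects of the derived category of sheaves of `F`-vector spaces on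
`X` such that every object `K` whose cohomology sheaves vanish outside `[-N, N]` and restrict to
local systems of rank at most `N` on all strata of the extremal stratification is isomorphic to
one of them. -/
theorem result (F : Type) [Field F] [Finite F] (X : Type) [MetricSpace X]
    (hX : IsCompactAlexandrov X) (N : ℕ) :
    ∃ T : Set (D F (TopCat.of X)), T.Finite ∧
      ∀ K : D F (TopCat.of X), Bounded F X N K → ∃ L ∈ T, Nonempty (K ≅ L) :=
  t_Q1 F X hX N

end Pool.Agent.Results.MP_c9ef16_gt.FinitenessOfComplexes
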